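import Pool.Agent.P8H53.GO.Base

/-!
# Project GO: degrees of `a - b ^ N` and `a b` (package ADD)
-/

namespace Pool.Agent.P8H53.GO

open Polynomial IntermediateField

universe u

variable {k F : Type u} [Field k] [Field F] [Algebra k F]

theorem coeff_swap (Q : k[X][X]) (i j : ℕ) :
    ((Bivariate.swap Q).coeff j).coeff i = (Q.coeff i).coeff j := by
  induction Q using Polynomial.induction_on' with
  | add p q hp hq => simp only [map_add, coeff_add, hp, hq]
  | monomial n a =>
    induction a using Polynomial.induction_on' with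
    | add p q hp hq => simp only [map_add, coeff_add, hp, hq]
    | monomial m r =>
      rw [Bivariate.swap_monomial_monomial]
      simp only [coeff_monomial]
      split_ifs <;> simp_all [coeff_monomial]

theorem natDegree_coeff_le (Q : k[X][X]) (i : ℕ) :
    (Q.coeff i).natDegree ≤ (Bivariate.swap Q).natDegree := by
  rw [natDegree_le_iff_coeff_eq_zero]
  intro j hj
  rw [← coeff_swap, coeff_eq_zero_of_natDegree_lt hj, coeff_zero]

theorem finrank_eq (x y : F) (hy : IsAlgebraic k⟮x⟯ y) :
    Module.finrank k⟮x⟯ F =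
      (minpoly k⟮x⟯ y).natDegree * Module.finrank (adjoin k ({x} ∪ {y} : Set F)) F := by
  have h1 := Module.finrank_mul_finrank k⟮x⟯ (k⟮x⟯⟮y⟯) F
  rw [adjoin.finrank hy.isIntegral] at h1
  have h2 : Module.finrank (k⟮x⟯⟮y⟯) F = Module.finrank (adjoin k ({x} ∪ {y} : Set F)) F := by
    have e := adjoin_adjoin_left k ({x} : Set F) ({y} : Set F)
    rw [← e]
    rfl
  rw [← h1, h2]

theorem finite_left (x y : F) [FiniteDimensional k⟮x⟯ F] :
    FiniteDimensional (adjoin k ({x} ∪ {y} : Set F)) F := by
  have h2 : FiniteDimensional (k⟮x⟯⟮y⟯) F := FiniteDimensional.right k⟮x⟯ (k⟮x⟯⟮y⟯) F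
  have e := adjoin_adjoin_left k ({x} : Set F) ({y} : Set F)
  rw [← e]
  exact h2

theorem finite_of (x y : F) (hy : IsAlgebraic k⟮x⟯ y)
    [h : FiniteDimensional (adjoin k ({x} ∪ {y} : Set F)) F] : FiniteDimensional k⟮x⟯ F := by
  have h1 : FiniteDimensional k⟮x⟯ (k⟮x⟯⟮y⟯) := adjoin.finiteDimensional hy.isIntegral
  have h2 : FiniteDimensional (k⟮x⟯⟮y⟯) F := by
    have e := adjoin_adjoin_left k ({x} : Set F) ({y} : Set F)
    rw [← e] at h
    exact h
  exact FiniteDimensional.trans k⟮x⟯ (k⟮x⟯⟮y⟯) F

theorem fd : Pool.Agent.P8H91.GO.S_FD.{u} := by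
  intro k F _ _ _ a b ha hb hfin
  have h1 : IsAlgebraic k⟮b⟯ a := Algebra.IsAlgebraic.isAlgebraic a
  have h2 := symm a b ha hb h1
  haveI : FiniteDimensional (adjoin k ({a} ∪ {b} : Set F)) F := by
    rw [Set.union_comm]
    exact finite_left b a
  exact finite_of a b h2

/-- the main lemma -/
theorem relation (a b : F) (ha : Transcendental k a) (hb : Transcendental k b)
    (h : IsAlgebraic k⟮b⟯ a) : ∃ Q : k[X][X], Q ≠ 0 ∧ ev a b Q = 0 ∧
      Q.natDegree = (minpoly k⟮a⟯ b).natDegree ∧
      (Bivariate.swap Q).natDegree = (minpoly k⟮b⟯ a).natDegree := by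
  obtain ⟨Q, hQ, h0⟩ := exists_relation a b ha (symm a b ha hb h)
  refine ⟨Q, hQ.ne_zero, h0, natDegree_irreducible a b ha Q hQ h0, ?_⟩
  refine natDegree_irreducible b a hb _ ?_ (by rw [ev_swap, h0])
  exact (MulEquiv.irreducible_iff (Bivariate.swap (R := k))).2 hQ

/-- comparison of two generators over `b` -/
theorem compare (a b s : F) (n : ℕ) (ha : Transcendental k a) (hb : Transcendental k b)
    (hs : Transcendental k s) (hfin : FiniteDimensional k⟮b⟯ F)
    (hadj : adjoin k ({s} ∪ {b} : Set F) = adjoin k ({a} ∪ {b} : Set F))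
    (h : ∀ Q : k[X][X], Q ≠ 0 → ev a b Q = 0 → ∃ P : k[X][X], P ≠ 0 ∧ ev s b P = 0 ∧
      P.natDegree ≤ Q.natDegree + n * (Bivariate.swap Q).natDegree) :
    Module.finrank k⟮s⟯ F ≤ Module.finrank k⟮a⟯ F + n * Module.finrank k⟮b⟯ F := by
  have h1 : IsAlgebraic k⟮b⟯ a := Algebra.IsAlgebraic.isAlgebraic a
  obtain ⟨Q, hQ, h0, hd1, hd2⟩ := relation a b ha hb h1
  obtain ⟨P, hP, hP0, hPd⟩ := h Q hQ h0
  obtain ⟨hb', hle⟩ := natDegree_minpoly_le s b hs P hP hP0
  have e1 := finrank_eq s b hb'
  have e2 := finrank_eq a b (symm a b ha hb h1)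
  have e3 := finrank_eq b a h1
  rw [Set.union_comm] at e3
  rw [hadj] at e1
  rw [e1, e2, e3, ← hd1, ← hd2]
  calc _ ≤ (Q.natDegree + n * (Bivariate.swap Q).natDegree) *
        Module.finrank (adjoin k ({a} ∪ {b} : Set F)) F := Nat.mul_le_mul_right _ (hle.trans hPd)
    _ = _ := by ring

/-! ## Sums -/

theorem ev_ev (a b : F) (x y : k[X][X]) (Q : k[X][X]) :
    ev a b (aevalAeval x y Q) = ev (ev a b x) (ev a b y) Q := by
  have h : (ev a b).comp (aevalAeval x y : k[X][X] →ₐ[k] k[X][X]) =
      ev (ev a b x) (ev a b y) := by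
    apply (aevalAevalEquiv k F).symm.injective
    ext
    · simp [ev]
    · simp [ev]
  exact congrArg (fun f => f Q) h

theorem add : Pool.Agent.P8H91.GO.S_ADD.{u} := by
  intro k F _ _ _ a b N hN ha hb hs hfin
  refine compare a b (a - b ^ N) N ha hb hs hfin ?_ ?_
  · apply le_antisymm
    · rw [adjoin_le_iff]
      have h1 : a ∈ adjoin k ({a} ∪ {b} : Set F) := subset_adjoin _ _ (by simp)
      have h2 : b ∈ adjoin k ({a} ∪ {b} : Set F) := subset_adjoin _ _ (by simp)
      rintro z (hz | hz)
      · rw [Set.mem_singleton_iff] at hz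
        rw [hz]
        exact sub_mem h1 (pow_mem h2 N)
      · rw [Set.mem_singleton_iff] at hz
        rw [hz]
        exact h2
    · rw [adjoin_le_iff]
      have h1 : a - b ^ N ∈ adjoin k ({a - b ^ N} ∪ {b} : Set F) := subset_adjoin _ _ (by simp)
      have h2 : b ∈ adjoin k ({a - b ^ N} ∪ {b} : Set F) := subset_adjoin _ _ (by simp)
      rintro z (hz | hz)
      · rw [Set.mem_singleton_iff] at hz
        rw [hz]
        have := add_mem h1 (pow_mem h2 N)
        simpa using this
      · rw [Set.mem_singleton_iff] at hz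
        rw [hz]
        exact h2
  · intro Q hQ h0
    refine ⟨(aevalAeval (C X + X ^ N : k[X][X]) (X : k[X][X]) : k[X][X] →ₐ[k] k[X][X]) Q, ?_, ?_, ?_⟩
    · intro hne
      apply hQ
      have h : (aevalAeval (C X - X ^ N : k[X][X]) (X : k[X][X]) : k[X][X] →ₐ[k] k[X][X])
          ((aevalAeval (C X + X ^ N : k[X][X]) (X : k[X][X]) : k[X][X] →ₐ[k] k[X][X]) Q) = Q := by
        have h : (aevalAeval (C X - X ^ N : k[X][X]) (X : k[X][X]) : k[X][X] →ₐ[k] k[X][X]).comp
            (aevalAeval (C X + X ^ N : k[X][X]) (X : k[X][X]) : k[X][X] →ₐ[k] k[X][X]) =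
            AlgHom.id k _ := by
          apply (aevalAevalEquiv k k[X][X]).symm.injective
          ext1
          · simp
          · simp
        exact congrArg (fun f => f Q) h
      rw [← h, hne, map_zero]
    · rw [ev_ev]
      have e1 : ev (a - b ^ N) b (C X + X ^ N : k[X][X]) = a := by
        rw [map_add, map_pow, ev_CX, ev_X]
        ring
      rw [e1, ev_X, h0]
    · have e : (aevalAeval (C X + X ^ N : k[X][X]) (X : k[X][X]) : k[X][X] →ₐ[k] k[X][X]) Q =
          ∑ i ∈ Finset.range (Q.natDegree + 1),
          aeval (C X + X ^ N : k[X][X]) (Q.coeff i) * X ^ i := by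
        conv_lhs => rw [Q.as_sum_range_C_mul_X_pow]
        rw [map_sum]
        refine Finset.sum_congr rfl (fun i _ => ?_)
        rw [map_mul, map_pow, aevalAeval_C, aevalAeval_Y]
      rw [e]
      apply natDegree_sum_le_of_forall_le
      intro i hi
      rw [Finset.mem_range] at hi
      have h1 : (aeval (C X + X ^ N : k[X][X]) (Q.coeff i)).natDegree ≤
          (Bivariate.swap Q).natDegree * N := by
        rw [aeval_eq_sum_range]
        apply natDegree_sum_le_of_forall_le
        intro j hj
        rw [Finset.mem_range] at hj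
        refine (natDegree_smul_le _ _).trans ?_
        refine natDegree_pow_le.trans ?_
        have h2 := natDegree_coeff_le Q i
        refine Nat.mul_le_mul (by omega) ?_
        refine (natDegree_add_le _ _).trans ?_
        rw [natDegree_C, natDegree_X_pow]
        omega
      refine natDegree_mul_le.trans ?_
      rw [natDegree_X_pow, mul_comm N]
      omega

theorem ev_monomial (a b : F) (i j : ℕ) (r : k) :
    ev a b (monomial i (monomial j r)) = algebraMap k F r * a ^ j * b ^ i := by
  rw [← C_mul_X_pow_eq_monomial, map_mul, map_pow, ev_C, ev_X, aeval_monomial]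

theorem mul : Pool.Agent.P8H91.GO.S_MUL.{u} := by
  intro k F _ _ _ a b ha hb hs hfin
  have hb0 : b ≠ 0 := by
    rintro rfl
    exact hb isAlgebraic_zero
  have key := compare a b (a * b) 1 ha hb hs hfin ?_ ?_
  · rwa [one_mul] at key
  · apply le_antisymm
    · rw [adjoin_le_iff]
      have h1 : a ∈ adjoin k ({a} ∪ {b} : Set F) := subset_adjoin _ _ (by simp)
      have h2 : b ∈ adjoin k ({a} ∪ {b} : Set F) := subset_adjoin _ _ (by simp)
      rintro z (hz | hz)
      · rw [Set.mem_singleton_iff] at hz
        rw [hz]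
        exact mul_mem h1 h2
      · rw [Set.mem_singleton_iff] at hz
        rw [hz]
        exact h2
    · rw [adjoin_le_iff]
      have h1 : a * b ∈ adjoin k ({a * b} ∪ {b} : Set F) := subset_adjoin _ _ (by simp)
      have h2 : b ∈ adjoin k ({a * b} ∪ {b} : Set F) := subset_adjoin _ _ (by simp)
      rintro z (hz | hz)
      · rw [Set.mem_singleton_iff] at hz
        rw [hz]
        have := mul_mem h1 (inv_mem h2)
        rwa [mul_assoc, mul_inv_cancel₀ hb0, mul_one] at this
      · rw [Set.mem_singleton_iff] at hz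
        rw [hz]
        exact h2
  · intro Q hQ h0
    set m := (Bivariate.swap Q).natDegree with hm
    set n := Q.natDegree with hn
    refine ⟨∑ i ∈ Finset.range (n + 1), ∑ j ∈ Finset.range (m + 1),
      monomial (m - j + i) (monomial j ((Q.coeff i).coeff j)), ?_, ?_, ?_⟩
    · have h1 : Q.coeff n ≠ 0 := by
        rw [hn]
        exact leadingCoeff_ne_zero.2 hQ
      set j₀ := (Q.coeff n).natDegree with hj0
      have h2 : (Q.coeff n).coeff j₀ ≠ 0 := leadingCoeff_ne_zero.2 h1
      have h3 : j₀ ≤ m := natDegree_coeff_le Q n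
      intro hne
      apply h2
      have h4 := congrArg (fun P : k[X][X] => (P.coeff (m - j₀ + n)).coeff j₀) hne
      simp only [finset_sum_coeff, coeff_zero] at h4
      rw [← h4]
      rw [Finset.sum_eq_single n, Finset.sum_eq_single j₀]
      · simp [coeff_monomial]
      · intro j _ hj
        rw [coeff_monomial]
        split_ifs
        · rw [coeff_monomial, if_neg hj]
        · simp
      · intro h
        exact absurd (Finset.mem_range.2 (by omega)) h
      · intro i _ hi
        apply Finset.sum_eq_zero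
        intro j hj
        rw [coeff_monomial]
        split_ifs with h5
        · rw [coeff_monomial, if_neg]
          rintro rfl
          omega
        · simp
      · intro h
        exact absurd (Finset.mem_range.2 (by omega)) h
    · rw [map_sum]
      have h1 : ev a b Q = ∑ i ∈ Finset.range (n + 1), ∑ j ∈ Finset.range (m + 1),
          algebraMap k F ((Q.coeff i).coeff j) * a ^ j * b ^ i := by
        rw [ev_eq_sum]
        refine Finset.sum_congr rfl (fun i _ => ?_)
        rw [aeval_eq_sum_range' (n := m + 1) (by have := natDegree_coeff_le Q i; omega),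
          Finset.sum_mul]
        refine Finset.sum_congr rfl (fun j _ => ?_)
        rw [Algebra.smul_def]
      have h2 : b ^ m * ev a b Q = 0 := by rw [h0, mul_zero]
      rw [← h2, h1, Finset.mul_sum]
      refine Finset.sum_congr rfl (fun i _ => ?_)
      rw [map_sum, Finset.mul_sum]
      refine Finset.sum_congr rfl (fun j hj => ?_)
      rw [Finset.mem_range] at hj
      rw [ev_monomial, mul_pow, pow_add]
      have h3 : b ^ m = b ^ j * b ^ (m - j) := by rw [← pow_add]; congr 1; omega
      rw [h3]
      ring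
    · apply natDegree_sum_le_of_forall_le
      intro i hi
      apply natDegree_sum_le_of_forall_le
      intro j hj
      rw [Finset.mem_range] at hi hj
      refine (natDegree_monomial_le _).trans ?_
      omega

end Pool.Agent.P8H53.GO
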