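import Pool.Agent.P8H91.GO.Stm

/-!
# Project GO: bivariate relations and degrees (package ADD)
-/

namespace Pool.Agent.P8H53.GO

open Polynomial IntermediateField

universe u

variable {k F : Type u} [Field k] [Field F] [Algebra k F]

/-- evaluation of a bivariate polynomial -/
noncomputable def ev (a b : F) : k[X][X] →ₐ[k] F := aevalAeval a b

theorem ev_C (a b : F) (p : k[X]) : ev a b (C p) = aeval a p := aevalAeval_C a b p

theorem ev_X (a b : F) : ev (k := k) a b X = b := aevalAeval_Y a b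

theorem ev_CX (a b : F) : ev (k := k) a b (C X) = a := aevalAeval_X a b

theorem ev_swap (a b : F) (Q : k[X][X]) : ev a b (Bivariate.swap Q) = ev b a Q :=
  Bivariate.aevalAeval_swap a b Q

theorem ev_eq (a b : F) (Q : k[X][X]) : ev a b Q = Q.eval₂ (aeval a : k[X] →ₐ[k] F).toRingHom b := by
  have : (ev a b : k[X][X] →ₐ[k] F).toRingHom = eval₂RingHom (aeval a : k[X] →ₐ[k] F).toRingHom b := by
    apply Polynomial.ringHom_ext
    · intro p
      simp [ev_C]
    · simp [ev_X]
  have h := congrArg (fun f => f Q) this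
  simpa using h

theorem ev_eq_sum (a b : F) (Q : k[X][X]) :
    ev a b Q = ∑ i ∈ Finset.range (Q.natDegree + 1), aeval a (Q.coeff i) * b ^ i := by
  rw [ev_eq, eval₂_eq_sum_range]
  rfl

/-- The polynomial ring as a subring of `k(a)`. -/
theorem isFrac (a : F) (ha : Transcendental k a) :
    letI : Algebra k[X] k⟮a⟯ := (aeval (AdjoinSimple.gen k a) : k[X] →ₐ[k] k⟮a⟯).toRingHom.toAlgebra
    IsFractionRing k[X] k⟮a⟯ := by
  letI : Algebra k[X] k⟮a⟯ := (aeval (AdjoinSimple.gen k a) : k[X] →ₐ[k] k⟮a⟯).toRingHom.toAlgebra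
  have hmap : ∀ p : k[X], (algebraMap k[X] k⟮a⟯ p : F) = aeval a p := by
    intro p
    change ((aeval (AdjoinSimple.gen k a) p : k⟮a⟯) : F) = aeval a p
    rw [← IntermediateField.algebraMap_apply, ← aeval_algebraMap_apply, AdjoinSimple.algebraMap_gen]
  have hinj : Function.Injective (algebraMap k[X] k⟮a⟯) := by
    rw [injective_iff_map_eq_zero]
    intro p hp
    have h := hmap p
    rw [hp] at h
    by_contra hne
    exact ha ⟨p, hne, by rw [← h]; rfl⟩
  haveI : FaithfulSMul k[X] k⟮a⟯ := (faithfulSMul_iff_algebraMap_injective _ _).2 hinj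
  refine IsFractionRing.of_field k[X] k⟮a⟯ ?_
  intro z
  obtain ⟨r, s, h⟩ := (mem_adjoin_simple_iff k (z : F)).1 z.2
  refine ⟨r, s, ?_⟩
  apply Subtype.ext
  rw [h]
  push_cast
  rw [hmap, hmap]


/-- A relation over the variable `s` bounds the degree of `b` over `k(s)`. -/
theorem natDegree_minpoly_le (s b : F) (hs : Transcendental k s) (P : k[X][X]) (hP : P ≠ 0)
    (h0 : ev s b P = 0) : IsAlgebraic k⟮s⟯ b ∧ (minpoly k⟮s⟯ b).natDegree ≤ P.natDegree := by
  let φ : k[X] →+* k⟮s⟯ := (aeval (AdjoinSimple.gen k s) : k[X] →ₐ[k] k⟮s⟯).toRingHom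
  have hmap : ∀ p : k[X], (φ p : F) = aeval s p := by
    intro p
    change ((aeval (AdjoinSimple.gen k s) p : k⟮s⟯) : F) = aeval s p
    rw [← IntermediateField.algebraMap_apply, ← aeval_algebraMap_apply, AdjoinSimple.algebraMap_gen]
  have hinj : Function.Injective φ := by
    rw [injective_iff_map_eq_zero]
    intro p hp
    have h := hmap p
    rw [hp] at h
    by_contra hne
    exact hs ⟨p, hne, by rw [← h]; rfl⟩
  have hP' : P.map φ ≠ 0 := by
    rwa [Ne, Polynomial.map_eq_zero_iff hinj]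
  have hev : aeval b (P.map φ) = 0 := by
    rw [aeval_def, eval₂_map, ← h0, ev_eq]
    congr 1
    ext p
    · exact hmap _
    · exact hmap _
  refine ⟨⟨_, hP', hev⟩, ?_⟩
  have h1 := minpoly.degree_le_of_ne_zero k⟮s⟯ b hP' hev
  have h2 := natDegree_le_natDegree h1
  exact h2.trans natDegree_map_le

/-- An irreducible relation has the degree of `b` over `k(a)`. -/
theorem natDegree_irreducible (a b : F) (ha : Transcendental k a) (Q : k[X][X])
    (hQ : Irreducible Q) (h0 : ev a b Q = 0) : Q.natDegree = (minpoly k⟮a⟯ b).natDegree := by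
  letI alg : Algebra k[X] k⟮a⟯ :=
    (aeval (AdjoinSimple.gen k a) : k[X] →ₐ[k] k⟮a⟯).toRingHom.toAlgebra
  haveI : IsFractionRing k[X] k⟮a⟯ := isFrac a ha
  have hmap : ∀ p : k[X], (algebraMap k[X] k⟮a⟯ p : F) = aeval a p := by
    intro p
    change ((aeval (AdjoinSimple.gen k a) p : k⟮a⟯) : F) = aeval a p
    rw [← IntermediateField.algebraMap_apply, ← aeval_algebraMap_apply, AdjoinSimple.algebraMap_gen]
  have hdeg : Q.natDegree ≠ 0 := by
    intro h
    rw [natDegree_eq_zero] at h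
    obtain ⟨q, rfl⟩ := h
    rw [ev_C] at h0
    refine ha ⟨q, ?_, h0⟩
    rintro rfl
    exact hQ.ne_zero (by simp)
  have hprim := hQ.isPrimitive hdeg
  have hirr : Irreducible (Q.map (algebraMap k[X] k⟮a⟯)) :=
    hprim.irreducible_iff_irreducible_map_fraction_map.1 hQ
  have hev : aeval b (Q.map (algebraMap k[X] k⟮a⟯)) = 0 := by
    rw [aeval_def, eval₂_map, ← h0, ev_eq]
    congr 1
    ext p
    · exact hmap _
    · exact hmap _
  have hint : IsIntegral k⟮a⟯ b := by
    rw [← isAlgebraic_iff_isIntegral]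
    exact ⟨_, hirr.ne_zero, hev⟩
  have hdvd := minpoly.dvd k⟮a⟯ b hev
  have hass := (minpoly.irreducible hint).associated_of_dvd hirr hdvd
  rw [← natDegree_map_eq_of_injective (IsFractionRing.injective k[X] k⟮a⟯) Q]
  exact (natDegree_eq_of_degree_eq (degree_eq_degree_of_associated hass)).symm

/-- A relation has an irreducible factor which is a relation. -/
theorem exists_irreducible (a b : F) (P : k[X][X]) (hP : P ≠ 0) (h0 : ev a b P = 0) :
    ∃ Q : k[X][X], Irreducible Q ∧ ev a b Q = 0 := by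
  obtain ⟨f, hf, hass⟩ := WfDvdMonoid.exists_factors P hP
  obtain ⟨u, hu⟩ := hass
  have h1 : ev a b f.prod = 0 := by
    rw [← hu, map_mul] at h0
    rcases mul_eq_zero.1 h0 with h | h
    · exact h
    · exact absurd h ((u.isUnit.map (ev a b)).ne_zero)
  rw [map_multiset_prod] at h1
  rw [Multiset.prod_eq_zero_iff, Multiset.mem_map] at h1
  obtain ⟨Q, hQ, h2⟩ := h1
  exact ⟨Q, hf Q hQ, h2⟩

/-- If `b` is algebraic over `k(a)` there is a relation. -/
theorem exists_relation (a b : F) (ha : Transcendental k a) (hb : IsAlgebraic k⟮a⟯ b) :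
    ∃ Q : k[X][X], Irreducible Q ∧ ev a b Q = 0 := by
  letI alg : Algebra k[X] k⟮a⟯ :=
    (aeval (AdjoinSimple.gen k a) : k[X] →ₐ[k] k⟮a⟯).toRingHom.toAlgebra
  haveI : IsFractionRing k[X] k⟮a⟯ := isFrac a ha
  letI alg2 : Algebra k[X] F := (aeval a : k[X] →ₐ[k] F).toRingHom.toAlgebra
  have hmap : ∀ p : k[X], (algebraMap k[X] k⟮a⟯ p : F) = aeval a p := by
    intro p
    change ((aeval (AdjoinSimple.gen k a) p : k⟮a⟯) : F) = aeval a p
    rw [← IntermediateField.algebraMap_apply, ← aeval_algebraMap_apply, AdjoinSimple.algebraMap_gen]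
  haveI : IsScalarTower k[X] k⟮a⟯ F := IsScalarTower.of_algebraMap_eq (fun p => (hmap p).symm)
  obtain ⟨P, hP, h0⟩ := (IsFractionRing.isAlgebraic_iff k[X] k⟮a⟯ F).2 hb
  refine exists_irreducible a b P hP ?_
  rw [ev_eq]
  exact h0

/-- `b` is algebraic over `k(a)` if `a` is algebraic over `k(b)`. -/
theorem symm (a b : F) (ha : Transcendental k a) (hb : Transcendental k b)
    (h : IsAlgebraic k⟮b⟯ a) : IsAlgebraic k⟮a⟯ b := by
  obtain ⟨Q, hQ, h0⟩ := exists_relation b a hb h
  refine (natDegree_minpoly_le a b ha (Bivariate.swap Q) ?_ ?_).1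
  · intro hne
    apply hQ.ne_zero
    rw [← Bivariate.swap_swap_apply Q, hne, map_zero]
  · rw [ev_swap, h0]

end Pool.Agent.P8H53.GO
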