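import Pool.Agent.P8H53.GO.Add

/-!
# Project GO: the gonality of a subfield (package GON)
-/

namespace Pool.Agent.P8H53.GO

open Polynomial IntermediateField

universe u

/-! ## Towers -/

section tower

variable {k E Z : Type u} [Field k] [Field E] [Field Z] [Algebra k E] [Algebra k Z] [Algebra E Z]
  [IsScalarTower k E Z]

theorem finrank_tower (y : E) :
    Module.finrank k⟮y⟯ E * Module.finrank E Z = Module.finrank k⟮algebraMap E Z y⟯ Z := by
  have h1 := Module.finrank_mul_finrank k⟮y⟯ E Z
  rw [h1]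
  have h2 : (k⟮y⟯).map (IsScalarTower.toAlgHom k E Z) = k⟮algebraMap E Z y⟯ := by
    rw [adjoin_map, Set.image_singleton]
    rfl
  rw [← h2]
  exact Algebra.finrank_eq_of_equiv_equiv ((k⟮y⟯).equivMap (IsScalarTower.toAlgHom k E Z)).toRingEquiv
    (RingEquiv.refl Z) (by ext x; rfl)

theorem finite_tower (y : E) [FiniteDimensional k⟮y⟯ E] [FiniteDimensional E Z] :
    FiniteDimensional k⟮algebraMap E Z y⟯ Z := by
  apply FiniteDimensional.of_finrank_pos
  rw [← finrank_tower]
  exact Nat.mul_pos Module.finrank_pos Module.finrank_pos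

end tower

section auto

variable {k Z : Type u} [Field k] [Field Z] [Algebra k Z]

theorem finrank_equiv (σ : Z ≃ₐ[k] Z) (z : Z) :
    Module.finrank k⟮z⟯ Z = Module.finrank k⟮σ z⟯ Z := by
  have h2 : (k⟮z⟯).map σ.toAlgHom = k⟮σ z⟯ := by
    rw [adjoin_map, Set.image_singleton]
    rfl
  rw [← h2]
  exact Algebra.finrank_eq_of_equiv_equiv ((k⟮z⟯).equivMap σ.toAlgHom).toRingEquiv
    σ.toRingEquiv (by ext x; rfl)

theorem adjoin_sub (ξ : k) (z : Z) : k⟮algebraMap k Z ξ - z⟯ = k⟮z⟯ := by
  apply le_antisymm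
  · rw [adjoin_le_iff, Set.singleton_subset_iff]
    exact sub_mem (IntermediateField.algebraMap_mem _ ξ) (mem_adjoin_simple_self k z)
  · rw [adjoin_le_iff, Set.singleton_subset_iff]
    have h := sub_mem (IntermediateField.algebraMap_mem (k⟮algebraMap k Z ξ - z⟯) ξ)
      (mem_adjoin_simple_self k (algebraMap k Z ξ - z))
    simpa using h

theorem exists_const [IsAlgClosed k] (z : Z) (hz : IsAlgebraic k z) : ∃ c : k, algebraMap k Z c = z := by
  have hirr := minpoly.irreducible hz.isIntegral
  exact minpoly.mem_range_of_degree_eq_one k z (IsAlgClosed.degree_eq_one_of_irreducible k hirr)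

theorem finrank_algebraic (t : Z) (ht : Transcendental k t) (z : Z) (hz : IsAlgebraic k z) :
    Module.finrank k⟮z⟯ Z = 0 := by
  by_contra h
  have h1 : FiniteDimensional k⟮z⟯ Z := FiniteDimensional.of_finrank_pos (Nat.pos_of_ne_zero h)
  have h2 : Algebra.IsAlgebraic k⟮z⟯ Z := inferInstance
  have h3 : Algebra.IsAlgebraic k k⟮z⟯ := isAlgebraic_adjoin_simple hz.isIntegral
  have h4 : Algebra.IsAlgebraic k Z := Algebra.IsAlgebraic.trans k k⟮z⟯ Z
  exact ht (h4.isAlgebraic t)

theorem adjoin_const_mul (c : k) (hc : c ≠ 0) (z : Z) : k⟮algebraMap k Z c * z⟯ = k⟮z⟯ := by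
  have hc' : algebraMap k Z c ≠ 0 := by simpa using hc
  apply le_antisymm
  · rw [adjoin_le_iff, Set.singleton_subset_iff]
    exact mul_mem (IntermediateField.algebraMap_mem _ c) (mem_adjoin_simple_self k z)
  · rw [adjoin_le_iff, Set.singleton_subset_iff]
    have h := mul_mem (inv_mem (IntermediateField.algebraMap_mem (k⟮algebraMap k Z c * z⟯) c))
      (mem_adjoin_simple_self k (algebraMap k Z c * z))
    rwa [← mul_assoc, inv_mul_cancel₀ hc', one_mul] at h

theorem finrank_mul_le [IsAlgClosed k] (t : Z) (ht : Transcendental k t)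
    (hfin : FiniteDimensional k⟮t⟯ Z) (a b : Z) (ha : a ≠ 0) (hb : b ≠ 0) :
    Module.finrank k⟮a * b⟯ Z ≤ Module.finrank k⟮a⟯ Z + Module.finrank k⟮b⟯ Z := by
  by_cases hab : IsAlgebraic k (a * b)
  · rw [finrank_algebraic t ht _ hab]
    exact Nat.zero_le _
  by_cases h1 : IsAlgebraic k a
  · obtain ⟨c, rfl⟩ := exists_const a h1
    rw [adjoin_const_mul c (by rintro rfl; simp at ha)]
    exact Nat.le_add_left _ _
  by_cases h2 : IsAlgebraic k b
  · obtain ⟨c, rfl⟩ := exists_const b h2
    rw [mul_comm, adjoin_const_mul c (by rintro rfl; simp at hb)]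
    exact Nat.le_add_right _ _
  exact mul k Z a b h1 h2 hab (fd k Z b t h2 ht hfin)

theorem finrank_prod_le [IsAlgClosed k] (t : Z) (ht : Transcendental k t)
    (hfin : FiniteDimensional k⟮t⟯ Z) (m : Multiset Z) (hm : ∀ z ∈ m, z ≠ 0) :
    Module.finrank k⟮m.prod⟯ Z ≤ (m.map (fun z => Module.finrank k⟮z⟯ Z)).sum := by
  induction m using Multiset.induction_on with
  | empty =>
    rw [Multiset.prod_zero, finrank_algebraic t ht 1 isAlgebraic_one]
    exact Nat.zero_le _
  | cons a s ih =>
    rw [Multiset.prod_cons, Multiset.map_cons, Multiset.sum_cons]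
    have h1 : ∀ z ∈ s, z ≠ 0 := fun z hz => hm z (Multiset.mem_cons_of_mem hz)
    have h2 : s.prod ≠ 0 := by
      intro h
      rw [Multiset.prod_eq_zero_iff] at h
      exact h1 0 h rfl
    refine (finrank_mul_le t ht hfin a s.prod (hm a (Multiset.mem_cons_self a s)) h2).trans ?_
    exact Nat.add_le_add_left (ih h1) _

end auto

/-! ## A value of the minimal polynomial -/

theorem exists_value {k E L : Type u} [Field k] [IsAlgClosed k] [Field E] [Field L] [Algebra k E]
    [Algebra k L] [Algebra E L] [IsScalarTower k E L] (t : L) (ht : Transcendental k t)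
    (hint : IsIntegral E t) :
    ∃ ξ : k, Transcendental k ((minpoly E t).eval (algebraMap k E ξ)) := by
  classical
  by_contra hcon
  push Not at hcon
  have h1 : ∀ ξ : k, ∃ c : k, algebraMap k E c = (minpoly E t).eval (algebraMap k E ξ) := by
    intro ξ
    have h := hcon ξ
    rw [Transcendental, not_not] at h
    exact exists_const _ h
  choose v hv using h1
  obtain ⟨s, hs⟩ := Infinite.exists_subset_card_eq k ((minpoly E t).natDegree + 1)
  set p : k[X] := Lagrange.interpolate s id v with hp
  have hpdeg : p.degree < s.card := Lagrange.degree_interpolate_lt _ (Function.injective_id.injOn)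
  have heq : p.map (algebraMap k E) = minpoly E t := by
    classical
    have hcard : (s.image (algebraMap k E)).card = s.card :=
      Finset.card_image_of_injective _ (algebraMap k E).injective
    apply Polynomial.eq_of_degrees_lt_of_eval_finset_eq (s.image (algebraMap k E))
    · rw [hcard, degree_map]
      exact hpdeg
    · rw [hcard, hs]
      refine degree_le_natDegree.trans_lt ?_
      exact_mod_cast Nat.lt_succ_self _
    · intro x hx
      rw [Finset.mem_image] at hx
      obtain ⟨ξ, hξ, rfl⟩ := hx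
      rw [eval_map_algebraMap, aeval_algebraMap_apply, ← hv ξ]
      congr 1
      rw [hp]
      exact Lagrange.eval_interpolate_at_node v (Function.injective_id.injOn) hξ
  apply ht
  refine ⟨p, ?_, ?_⟩
  · intro h0
    rw [h0, Polynomial.map_zero] at heq
    exact minpoly.ne_zero hint heq.symm
  · have h := minpoly.aeval E t
    rw [← heq, aeval_map_algebraMap] at h
    exact h

theorem core (k E E₁ L Z : Type u) [Field k] [IsAlgClosed k] [Field E] [Field E₁] [Field L]
    [Field Z] [Algebra k E] [Algebra k E₁] [Algebra k L] [Algebra k Z] [Algebra E E₁]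
    [Algebra E Z] [Algebra E₁ Z] [Algebra E₁ L] [IsScalarTower k E E₁] [IsScalarTower k E Z]
    [IsScalarTower k E₁ Z] [IsScalarTower k E₁ L] [IsScalarTower E E₁ Z] [Normal E Z]
    [FiniteDimensional E Z] (t₁ : E₁) (ht : Transcendental k t₁) (htop : E⟮t₁⟯ = ⊤)
    (hfin : FiniteDimensional k⟮algebraMap E₁ L t₁⟯ L) :
    ∃ y : E, Transcendental k y ∧ FiniteDimensional k⟮y⟯ E ∧
      Module.finrank k⟮y⟯ E ≤ Module.finrank k⟮algebraMap E₁ L t₁⟯ L := by
  haveI : FiniteDimensional E₁ Z := FiniteDimensional.right E E₁ Z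
  haveI : FiniteDimensional E E₁ := FiniteDimensional.left E E₁ Z
  have hint : IsIntegral E t₁ := IsIntegral.of_finite E t₁
  have hLpos : 0 < Module.finrank k⟮algebraMap E₁ L t₁⟯ L := Module.finrank_pos
  have hL := finrank_tower (k := k) (E := E₁) (Z := L) t₁
  have hE₁pos : 0 < Module.finrank k⟮t₁⟯ E₁ := by
    rw [← hL] at hLpos
    exact Nat.pos_of_mul_pos_right hLpos
  have hLE₁ : 0 < Module.finrank E₁ L := by
    rw [← hL] at hLpos
    exact Nat.pos_of_mul_pos_left hLpos
  haveI : FiniteDimensional k⟮t₁⟯ E₁ := FiniteDimensional.of_finrank_pos hE₁pos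
  obtain ⟨ξ, hξ⟩ := exists_value t₁ ht hint
  set y : E := (minpoly E t₁).eval (algebraMap k E ξ) with hy
  -- the element of `Z`
  set tz : Z := algebraMap E₁ Z t₁ with htz
  have htz' : Transcendental k tz := by
    intro h
    apply ht
    exact (isAlgebraic_algebraMap_iff (algebraMap E₁ Z).injective).1 h
  haveI hfinZ : FiniteDimensional k⟮tz⟯ Z := finite_tower t₁
  have hmz : minpoly E tz = minpoly E t₁ := by
    rw [htz]
    exact minpoly.algebraMap_eq (algebraMap E₁ Z).injective t₁
  have hintz : IsIntegral E tz := IsIntegral.of_finite E tz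
  have hsplit : ((minpoly E t₁).map (algebraMap E Z)).Splits := by
    rw [← hmz]
    exact Normal.splits inferInstance tz
  set R : Multiset Z := ((minpoly E t₁).map (algebraMap E Z)).roots with hR
  have hcard : Multiset.card R = (minpoly E t₁).natDegree := by
    rw [hR, ← hsplit.natDegree_eq_card_roots, natDegree_map]
  have hroot : ∀ x ∈ R, Module.finrank k⟮x⟯ Z = Module.finrank k⟮tz⟯ Z ∧ Transcendental k x := by
    intro x hx
    have h1 : aeval x (minpoly E tz) = 0 := by
      rw [hmz]
      have h2 := isRoot_of_mem_roots hx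
      rw [IsRoot, eval_map_algebraMap] at h2
      exact h2
    obtain ⟨σ, hσ⟩ := minpoly.exists_algEquiv_of_root' (K := E) (L := Z)
      (isAlgebraic_iff_isIntegral.2 hintz) h1
    have h3 := finrank_equiv (k := k) (σ.restrictScalars k) tz
    have h4 : (σ.restrictScalars k) tz = x := hσ
    rw [h4] at h3
    refine ⟨h3.symm, ?_⟩
    intro halg
    apply htz'
    have h5 := (isAlgebraic_algHom_iff ((σ.restrictScalars k).symm : Z →ₐ[k] Z)
      (σ.restrictScalars k).symm.injective (a := x)).2 halg
    rw [← h4] at h5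
    simpa using h5
  have hprod : algebraMap E Z y = (R.map (fun x => algebraMap k Z ξ - x)).prod := by
    have h1 := hsplit.eval_eq_prod_roots_of_monic ((minpoly.monic hint).map _) (algebraMap k Z ξ)
    rw [← h1, hy, IsScalarTower.algebraMap_apply k E Z, eval_map_algebraMap, aeval_algebraMap_apply]
    rfl
  have hle : Module.finrank k⟮algebraMap E Z y⟯ Z ≤
      (minpoly E t₁).natDegree * Module.finrank k⟮tz⟯ Z := by
    rw [hprod]
    refine (finrank_prod_le tz htz' hfinZ _ ?_).trans ?_
    · intro z hz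
      rw [Multiset.mem_map] at hz
      obtain ⟨x, hx, rfl⟩ := hz
      intro h0
      apply (hroot x hx).2
      have h1 : x = algebraMap k Z ξ := by
        rw [sub_eq_zero] at h0
        exact h0.symm
      rw [h1]
      exact isAlgebraic_algebraMap ξ
    · rw [Multiset.map_map, ← hcard]
      refine (Multiset.sum_le_card_nsmul _ (Module.finrank k⟮tz⟯ Z) ?_).trans ?_
      · intro n hn
        rw [Multiset.mem_map] at hn
        obtain ⟨x, hx, rfl⟩ := hn
        rw [Function.comp_apply, adjoin_sub]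
        exact (hroot x hx).1.le
      · rw [Multiset.card_map, smul_eq_mul]
  -- towers
  have h1 := finrank_tower (k := k) (E := E) (Z := Z) y
  have h2 := finrank_tower (k := k) (E := E₁) (Z := Z) t₁
  have h3 := Module.finrank_mul_finrank E E₁ Z
  have h4 : Module.finrank E E₁ = (minpoly E t₁).natDegree := by
    rw [← adjoin.finrank hint, htop, finrank_top']
  rw [← h1, ← h2, ← h3, h4] at hle
  have hrpos : 0 < (minpoly E t₁).natDegree := minpoly.natDegree_pos hint
  have hZpos : 0 < Module.finrank E₁ Z := Module.finrank_pos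
  have h5 : Module.finrank k⟮y⟯ E ≤ Module.finrank k⟮t₁⟯ E₁ := by
    have h6 : Module.finrank k⟮y⟯ E * ((minpoly E t₁).natDegree * Module.finrank E₁ Z) ≤
        Module.finrank k⟮t₁⟯ E₁ * ((minpoly E t₁).natDegree * Module.finrank E₁ Z) := by
      calc _ ≤ _ := hle
        _ = _ := by ring
    exact Nat.le_of_mul_le_mul_right h6 (Nat.mul_pos hrpos hZpos)
  have hyz : Transcendental k (algebraMap E Z y) := by
    intro h
    apply hξ
    exact (isAlgebraic_algebraMap_iff (algebraMap E Z).injective).1 h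
  haveI hfy : FiniteDimensional k⟮algebraMap E Z y⟯ Z := fd k Z _ tz hyz htz' hfinZ
  refine ⟨y, hξ, ?_, ?_⟩
  · apply FiniteDimensional.of_finrank_pos
    have h7 : 0 < Module.finrank k⟮algebraMap E Z y⟯ Z := Module.finrank_pos
    rw [← h1] at h7
    exact Nat.pos_of_mul_pos_right h7
  · refine h5.trans ?_
    rw [← hL]
    exact Nat.le_mul_of_pos_right _ hLE₁

theorem adjoin_gen (E L : Type u) [Field E] [Field L] [Algebra E L] (t : L) :
    E⟮AdjoinSimple.gen E t⟯ = (⊤ : IntermediateField E E⟮t⟯) := by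
  rw [eq_top_iff]
  intro z _
  obtain ⟨r, s, h⟩ := (mem_adjoin_simple_iff E (z : L)).1 z.2
  rw [mem_adjoin_simple_iff]
  refine ⟨r, s, ?_⟩
  apply Subtype.ext
  rw [h]
  have hmap : ∀ p : E[X], ((aeval (AdjoinSimple.gen E t) p : E⟮t⟯) : L) = aeval t p := by
    intro p
    rw [← IntermediateField.algebraMap_apply, ← aeval_algebraMap_apply, AdjoinSimple.algebraMap_gen]
  push_cast
  rw [hmap, hmap]

theorem gon : Pool.Agent.P8H91.GO.S_GON.{u} := by
  intro k L _ _ _ _ E t ht hfin hx
  obtain ⟨x, hx⟩ := hx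
  have hxL : Transcendental k (algebraMap E L x) := by
    intro h
    apply hx
    exact (isAlgebraic_algebraMap_iff (algebraMap E L).injective).1 h
  haveI h1 : FiniteDimensional k⟮algebraMap E L x⟯ L := fd k L _ t hxL ht hfin
  have h2 := finrank_tower (k := k) (E := E) (Z := L) x
  have h3 : 0 < Module.finrank k⟮algebraMap E L x⟯ L := Module.finrank_pos
  rw [← h2] at h3
  haveI : FiniteDimensional E L := FiniteDimensional.of_finrank_pos (Nat.pos_of_mul_pos_left h3)
  set t₁ : E⟮t⟯ := AdjoinSimple.gen E t with ht₁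
  have hmap : algebraMap E⟮t⟯ L t₁ = t := AdjoinSimple.algebraMap_gen E t
  haveI i1 : IsScalarTower k E⟮t⟯ L := IsScalarTower.of_algebraMap_eq (fun x => rfl)
  have ht₁' : Transcendental k t₁ := by
    intro h
    apply ht
    rw [← hmap]
    exact h.algebraMap
  haveI : IsAlgClosure E (AlgebraicClosure E⟮t⟯) := IsAlgClosure.ofAlgebraic E E⟮t⟯ _
  haveI : Normal E (AlgebraicClosure E⟮t⟯) := IsAlgClosure.normal E _
  have hfin' : FiniteDimensional k⟮algebraMap E⟮t⟯ L t₁⟯ L := by
    rw [hmap]
    exact hfin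
  haveI i2 : IsScalarTower k E⟮t⟯ (normalClosure E E⟮t⟯ (AlgebraicClosure E⟮t⟯)) := by
    refine IsScalarTower.of_algebraMap_eq (fun x => ?_)
    apply Subtype.ext
    exact IsScalarTower.algebraMap_apply k E⟮t⟯ (AlgebraicClosure E⟮t⟯) x
  haveI i3 : IsScalarTower k E (normalClosure E E⟮t⟯ (AlgebraicClosure E⟮t⟯)) := by
    refine IsScalarTower.of_algebraMap_eq (fun x => ?_)
    apply Subtype.ext
    rfl
  obtain ⟨y, hy1, hy2, hy3⟩ := core k E E⟮t⟯ L
    (normalClosure E E⟮t⟯ (AlgebraicClosure E⟮t⟯)) t₁ ht₁' (adjoin_gen E L t) hfin'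
  rw [hmap] at hy3
  exact ⟨y, hy1, hy2, hy3⟩

end Pool.Agent.P8H53.GO
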